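import Pool.Agent.Helper42.RZ2.Basic
import Pool.Agent.Helper42.RZ2.St.R1

/-! # RZ2-R1b: randomly shifted periodic configurations: mean measure -/

set_option autoImplicit false

open MeasureTheory Set Metric Filter Topology
open scoped ENNReal

namespace Pool.Agent.Helper50.RZ2

open Pool.Agent.Helper42.RZ Pool.Agent.Helper42.RZ2

theorem coord_bound {a b : ℂ} (k : ℤ × ℤ) :
    |(k.1 : ℝ)| * |dt a b| ≤ 2 * ‖lv a b k‖ * ‖b‖ ∧
      |(k.2 : ℝ)| * |dt a b| ≤ 2 * ‖lv a b k‖ * ‖a‖ := by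
  have hre : (lv a b k).re = k.1 * a.re + k.2 * b.re := by simp [lv]
  have him : (lv a b k).im = k.1 * a.im + k.2 * b.im := by simp [lv]
  have e1 : (k.1 : ℝ) * dt a b = (lv a b k).re * b.im - (lv a b k).im * b.re := by
    rw [hre, him, dt]; ring
  have e2 : (k.2 : ℝ) * dt a b = a.re * (lv a b k).im - a.im * (lv a b k).re := by
    rw [hre, him, dt]; ring
  have h1 := Complex.abs_re_le_norm (lv a b k)
  have h2 := Complex.abs_im_le_norm (lv a b k)
  have h3 := Complex.abs_re_le_norm a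
  have h4 := Complex.abs_im_le_norm a
  have h5 := Complex.abs_re_le_norm b
  have h6 := Complex.abs_im_le_norm b
  have n0 := norm_nonneg (lv a b k)
  have na := norm_nonneg a
  have nb := norm_nonneg b
  constructor
  · rw [← abs_mul, e1]
    refine (abs_sub _ _).trans ?_
    rw [abs_mul, abs_mul]
    nlinarith [mul_le_mul h1 h6 (abs_nonneg _) n0, mul_le_mul h2 h5 (abs_nonneg _) n0]
  · rw [← abs_mul, e2]
    refine (abs_sub _ _).trans ?_
    rw [abs_mul, abs_mul]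
    nlinarith [mul_le_mul h3 h2 (abs_nonneg _) na, mul_le_mul h4 h1 (abs_nonneg _) na]

theorem finite_box {a b : ℂ} (h : dt a b ≠ 0) {m : ℕ} (y : Fin m → ℂ) {D : Set ℂ}
    (hD : Bornology.IsBounded D) : ∃ F : Finset (ℤ × ℤ), ∀ k ∉ F, ∀ i, ∀ u ∈ Sq,
      y i + lv a b k + (u.1 * a + u.2 * b) ∉ D := by
  obtain ⟨R, hR⟩ := hD.exists_norm_le
  obtain ⟨Y, hY⟩ : ∃ Y : ℝ, ∀ i, ‖y i‖ ≤ Y :=
    ⟨∑ i, ‖y i‖, fun i => Finset.single_le_sum (f := fun i => ‖y i‖)
      (fun _ _ => norm_nonneg _) (Finset.mem_univ i)⟩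
  have hd : 0 < |dt a b| := abs_pos.2 h
  set Z : ℝ := R + Y + ‖a‖ + ‖b‖ with hZ
  set N : ℤ := ⌈(2 * Z * ‖b‖ + 2 * Z * ‖a‖) / |dt a b|⌉ with hN
  refine ⟨Finset.Icc (-N) N ×ˢ Finset.Icc (-N) N, fun k hk i u hu hmem => hk ?_⟩
  have hu1 : |u.1| ≤ 1 := by
    obtain ⟨⟨h1, h2⟩, -, -⟩ := hu
    rw [abs_le]; constructor <;> linarith
  have hu2 : |u.2| ≤ 1 := by
    obtain ⟨-, h1, h2⟩ := hu
    rw [abs_le]; constructor <;> linarith
  have hb1 : ‖(u.1 * a + u.2 * b : ℂ)‖ ≤ ‖a‖ + ‖b‖ := by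
    refine (norm_add_le _ _).trans ?_
    rw [norm_mul, norm_mul, Complex.norm_real, Complex.norm_real, Real.norm_eq_abs,
      Real.norm_eq_abs]
    have := mul_le_of_le_one_left (norm_nonneg a) hu1
    have := mul_le_of_le_one_left (norm_nonneg b) hu2
    linarith
  have hlv : ‖lv a b k‖ ≤ Z := by
    have e : lv a b k = (y i + lv a b k + (u.1 * a + u.2 * b)) - y i - (u.1 * a + u.2 * b) := by
      ring
    rw [e]
    refine (norm_sub_le _ _).trans ?_
    have h1 := norm_sub_le (y i + lv a b k + (u.1 * a + u.2 * b)) (y i)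
    have h2 := hR _ hmem
    have h3 := hY i
    rw [hZ]
    linarith
  have hZ0 : 0 ≤ Z := (norm_nonneg _).trans hlv
  obtain ⟨c1, c2⟩ := coord_bound (a := a) (b := b) k
  have key1 : |(k.1 : ℝ)| ≤ (2 * Z * ‖b‖ + 2 * Z * ‖a‖) / |dt a b| := by
    rw [le_div_iff₀ hd]
    have := mul_le_mul_of_nonneg_right hlv (norm_nonneg b)
    have := mul_nonneg hZ0 (norm_nonneg a)
    linarith
  have key2 : |(k.2 : ℝ)| ≤ (2 * Z * ‖b‖ + 2 * Z * ‖a‖) / |dt a b| := by
    rw [le_div_iff₀ hd]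
    have := mul_le_mul_of_nonneg_right hlv (norm_nonneg a)
    have := mul_nonneg hZ0 (norm_nonneg b)
    linarith
  have key1' : |k.1| ≤ N := by
    have : ((|k.1| : ℤ) : ℝ) ≤ (N : ℝ) := by
      rw [Int.cast_abs]
      exact key1.trans (Int.le_ceil _)
    exact_mod_cast this
  have key2' : |k.2| ≤ N := by
    have : ((|k.2| : ℤ) : ℝ) ≤ (N : ℝ) := by
      rw [Int.cast_abs]
      exact key2.trans (Int.le_ceil _)
    exact_mod_cast this
  rw [Finset.mem_product, Finset.mem_Icc, Finset.mem_Icc]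
  exact ⟨abs_le.1 key1', abs_le.1 key2'⟩

theorem shift_points {a b : ℂ} (h : dt a b ≠ 0) {m : ℕ} (y : Fin m → ℂ) {D : Set ℂ}
    (hD : Bornology.IsBounded D) : ∃ (n : ℕ) (c : Fin n → Fin m × (ℤ × ℤ)),
    Function.Injective c ∧ ∀ (i : Fin m) (B : Set ℂ), MeasurableSet B → B ⊆ D →
      ∑ j : Fin n, (if (c j).1 = i then
        (volume : Measure (ℝ × ℝ)).real
          {u | u ∈ Sq ∧ y i + lv a b (c j).2 + (u.1 * a + u.2 * b) ∈ B} else 0) =
        |dt a b|⁻¹ * (volume : Measure ℂ).real B := by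
  obtain ⟨F, hF⟩ := finite_box h y hD
  set G : Finset (Fin m × (ℤ × ℤ)) := Finset.univ ×ˢ F with hG
  refine ⟨G.card, fun j => (G.equivFin.symm j : Fin m × (ℤ × ℤ)), ?_, ?_⟩
  · exact Subtype.val_injective.comp G.equivFin.symm.injective
  intro i B hB hBD
  -- sum over the finite set
  have hsum : ∑ j : Fin G.card, (if ((G.equivFin.symm j : Fin m × (ℤ × ℤ))).1 = i then
        (volume : Measure (ℝ × ℝ)).real
          {u | u ∈ Sq ∧ y i + lv a b ((G.equivFin.symm j : Fin m × (ℤ × ℤ))).2 +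
            (u.1 * a + u.2 * b) ∈ B} else 0) =
      ∑ k ∈ F, (volume : Measure (ℝ × ℝ)).real
          {u | u ∈ Sq ∧ y i + lv a b k + (u.1 * a + u.2 * b) ∈ B} := by
    rw [Equiv.sum_comp G.equivFin.symm (fun p : G => if (p : Fin m × (ℤ × ℤ)).1 = i then
        (volume : Measure (ℝ × ℝ)).real
          {u | u ∈ Sq ∧ y i + lv a b (p : Fin m × (ℤ × ℤ)).2 +
            (u.1 * a + u.2 * b) ∈ B} else 0)]
    rw [Finset.sum_coe_sort G (fun p : Fin m × (ℤ × ℤ) => if p.1 = i then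
        (volume : Measure (ℝ × ℝ)).real
          {u | u ∈ Sq ∧ y i + lv a b p.2 + (u.1 * a + u.2 * b) ∈ B} else 0)]
    rw [hG, Finset.sum_product, Finset.sum_eq_single i]
    · simp
    · intro j _ hj
      simp [hj]
    · intro hi
      exact absurd (Finset.mem_univ i) hi
  rw [hsum]
  have hmeas : ∀ k : ℤ × ℤ, Measurable fun u : ℝ × ℝ =>
      y i + lv a b k + ((u.1 : ℂ) * a + (u.2 : ℂ) * b) := by
    intro k
    fun_prop
  have hset : ∀ k : ℤ × ℤ,
      {u : ℝ × ℝ | u ∈ Sq ∧ y i + lv a b k + ((u.1 : ℂ) * a + (u.2 : ℂ) * b) ∈ B} =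
      (fun u : ℝ × ℝ => y i + lv a b k + ((u.1 : ℂ) * a + (u.2 : ℂ) * b)) ⁻¹' B ∩ Sq := by
    intro k
    ext u
    simp only [mem_ofPred_eq, mem_inter_iff, mem_preimage]
    exact and_comm
  have hlin : ∀ k : ℤ × ℤ, ∫⁻ u in Sq, (B.indicator (fun _ => (1 : ℝ≥0∞)))
      (y i + lv a b k + ((u.1 : ℂ) * a + (u.2 : ℂ) * b)) =
      (volume : Measure (ℝ × ℝ))
        {u | u ∈ Sq ∧ y i + lv a b k + ((u.1 : ℂ) * a + (u.2 : ℂ) * b) ∈ B} := by
    intro k
    have e : (fun u : ℝ × ℝ => (B.indicator (fun _ => (1 : ℝ≥0∞)))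
        (y i + lv a b k + ((u.1 : ℂ) * a + (u.2 : ℂ) * b))) =
        ((fun u : ℝ × ℝ => y i + lv a b k + ((u.1 : ℂ) * a + (u.2 : ℂ) * b)) ⁻¹' B).indicator
          (fun _ => (1 : ℝ≥0∞)) := by
      funext u
      rfl
    rw [e, lintegral_indicator ((hmeas k) hB), setLIntegral_const, one_mul,
      Measure.restrict_apply ((hmeas k) hB), hset k]
  have ht := tiling h (y i) (f := B.indicator (fun _ => (1 : ℝ≥0∞)))
    (measurable_const.indicator hB)
  rw [lintegral_indicator_const hB, one_mul] at ht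
  simp_rw [hlin] at ht
  rw [tsum_eq_sum (s := F)] at ht
  · have ht' := congrArg ENNReal.toReal ht
    rw [ENNReal.toReal_mul, ENNReal.toReal_ofReal (inv_nonneg.2 (abs_nonneg _)),
      ENNReal.toReal_sum] at ht'
    · exact ht'
    · intro k _
      refine ((measure_mono ?_).trans_lt (?_ : (volume : Measure (ℝ × ℝ)) Sq < ⊤)).ne
      · exact fun u hu => hu.1
      · rw [volume_Sq]; exact ENNReal.one_lt_top
  · intro k hk
    have : {u : ℝ × ℝ | u ∈ Sq ∧ y i + lv a b k + ((u.1 : ℂ) * a + (u.2 : ℂ) * b) ∈ B} = ∅ := by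
      ext u
      simp only [mem_ofPred_eq, mem_empty_iff_false, iff_false, not_and]
      intro hu hmem
      exact hF k hk i u hu (hBD hmem)
    rw [this, measure_empty]

end Pool.Agent.Helper50.RZ2
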